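import Mathlib

set_option autoImplicit false

/-! # Tridiagonal pairs and admissible maps (definitions) -/

namespace Q46.TD

open Module

section Definitions

variable {K : Type*} [Field K] {V : Type*} [AddCommGroup V] [Module K V] {d : ℕ}

/-- A linear map is diagonalizable when its eigenspaces span the space. -/
def Diagonalizable (A : End K V) : Prop := ⨆ μ : K, A.eigenspace μ = ⊤

/-- `θ 0, ..., θ d` is an ordering of the eigenvalues of `A` (each listed exactly once), so that
`A.eigenspace (θ 0), ..., A.eigenspace (θ d)` is an ordering of the eigenspaces of `A`. -/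
structure Ordering (A : End K V) (θ : Fin (d + 1) → K) : Prop where
  injective : Function.Injective θ
  eigenvalues : ∀ μ : K, A.HasEigenvalue μ ↔ ∃ i, θ i = μ

/-- The sum of the eigenspaces of `A` whose index lies in `s`. -/
def eigSum (A : End K V) (θ : Fin (d + 1) → K) (s : Set (Fin (d + 1))) : Submodule K V :=
  ⨆ j ∈ s, A.eigenspace (θ j)

/-- A tridiagonal pair `A, B` (the map `B` is the `A^*` of the problem), together with orderings
of the eigenspaces of `A` and of `B` as in the conditions (2) and (3) of the problem. -/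
structure TridiagonalPair (A B : End K V) (θ θ' : Fin (d + 1) → K) : Prop where
  diagonalizable_left : Diagonalizable A
  diagonalizable_right : Diagonalizable B
  ordering_left : Ordering A θ
  ordering_right : Ordering B θ'
  tridiagonal_left : ∀ i : Fin (d + 1), (A.eigenspace (θ i)).map B ≤
    eigSum A θ {j | (j : ℕ) ≤ i + 1 ∧ (i : ℕ) ≤ j + 1}
  tridiagonal_right : ∀ i : Fin (d + 1), (B.eigenspace (θ' i)).map A ≤
    eigSum B θ' {j | (j : ℕ) ≤ i + 1 ∧ (i : ℕ) ≤ j + 1}
  irreducible : ∀ W : Submodule K V, W.map A ≤ W → W.map B ≤ W → W = ⊥ ∨ W = ⊤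

/-- `S` is admissible: `S V_i = V_i` and
`S (V^*_0 + ... + V^*_i) = V^*_d + ... + V^*_{d-i}` for all `i`. -/
def Admissible (A B : End K V) (θ θ' : Fin (d + 1) → K) (S : End K V) : Prop :=
  ∀ i : Fin (d + 1), (A.eigenspace (θ i)).map S = A.eigenspace (θ i) ∧
    (eigSum B θ' {j | j ≤ i}).map S = eigSum B θ' {j | i.rev ≤ j}

end Definitions

end Q46.TD
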