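import Pool.Agent.Q46.TD.Defs

set_option autoImplicit false

/-! # A tridiagonal pair of shape (1,2,1) with a non-diagonalizable admissible map -/

namespace Q46.TD

open Module

section Example

variable (K : Type*) [Field K]

/-- The map `A`. -/
def mapA : End K (Fin 4 → K) where
  toFun v := ![2 * v 0, 0, 0, -2 * v 3]
  map_add' v w := by ext i; fin_cases i <;> simp <;> ring
  map_smul' c v := by ext i; fin_cases i <;> simp <;> ring

/-- The map `A^*`. -/
def mapB : End K (Fin 4 → K) where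
  toFun v := ![5 * v 0 + 3 * v 1 + 4 * v 2, -3 * v 0 - 5 * v 1 + 4 * v 3,
    4 * v 0 + 5 * v 2 + 3 * v 3, 4 * v 1 - 3 * v 2 - 5 * v 3]
  map_add' v w := by ext i; fin_cases i <;> simp <;> ring
  map_smul' c v := by ext i; fin_cases i <;> simp <;> ring

/-- The admissible map `S`. -/
def mapS : End K (Fin 4 → K) where
  toFun v := ![2 * v 0, -27 * v 1 - 15 * v 2, 15 * v 1 + 3 * v 2, -18 * v 3]
  map_add' v w := by ext i; fin_cases i <;> simp <;> ring
  map_smul' c v := by ext i; fin_cases i <;> simp <;> ring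

/-- The inverse of `S`. -/
def mapT : End K (Fin 4 → K) where
  toFun v := ![v 0 / 2, (3 * v 1 + 15 * v 2) / 144, (-15 * v 1 - 27 * v 2) / 144, -v 3 / 18]
  map_add' v w := by ext i; fin_cases i <;> simp <;> ring
  map_smul' c v := by ext i; fin_cases i <;> simp <;> ring

/-- Eigenvalues of `A`. -/
def eigA : Fin 3 → K := ![2, 0, -2]

/-- Eigenvalues of `A^*`. -/
def eigB : Fin 3 → K := ![8, 0, -8]

variable {K}

lemma mem_eigenspace_apply (f : End K (Fin 4 → K)) (μ : K) (v : Fin 4 → K) :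
    v ∈ f.eigenspace μ ↔ f v 0 = μ * v 0 ∧ f v 1 = μ * v 1 ∧ f v 2 = μ * v 2 ∧ f v 3 = μ * v 3 := by
  rw [End.mem_eigenspace_iff]
  constructor
  · intro h
    exact ⟨congrFun h 0, congrFun h 1, congrFun h 2, congrFun h 3⟩
  · rintro ⟨h0, h1, h2, h3⟩
    ext i
    fin_cases i
    · exact h0
    · exact h1
    · exact h2
    · exact h3

lemma mapA_apply (v : Fin 4 → K) : mapA K v = ![2 * v 0, 0, 0, -2 * v 3] := rfl
lemma mapB_apply (v : Fin 4 → K) : mapB K v =
  ![5 * v 0 + 3 * v 1 + 4 * v 2, -3 * v 0 - 5 * v 1 + 4 * v 3,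
    4 * v 0 + 5 * v 2 + 3 * v 3, 4 * v 1 - 3 * v 2 - 5 * v 3] := rfl
lemma mapS_apply (v : Fin 4 → K) : mapS K v =
  ![2 * v 0, -27 * v 1 - 15 * v 2, 15 * v 1 + 3 * v 2, -18 * v 3] := rfl
lemma mapT_apply (v : Fin 4 → K) : mapT K v =
  ![v 0 / 2, (3 * v 1 + 15 * v 2) / 144, (-15 * v 1 - 27 * v 2) / 144, -v 3 / 18] := rfl

variable [CharZero K]

lemma two_ne : (2 : K) ≠ 0 := by norm_num

lemma memA2 (v : Fin 4 → K) : v ∈ (mapA K).eigenspace 2 ↔ v 1 = 0 ∧ v 2 = 0 ∧ v 3 = 0 := by
  rw [mem_eigenspace_apply, mapA_apply]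
  simp only [Matrix.cons_val_zero, Matrix.cons_val_one, Matrix.cons_val]
  constructor
  · rintro ⟨-, h1, h2, h3⟩
    refine ⟨?_, ?_, ?_⟩
    · simpa using h1.symm
    · simpa using h2.symm
    · have : (4 : K) * v 3 = 0 := by linear_combination -h3
      simpa using this
  · rintro ⟨h1, h2, h3⟩
    simp [h1, h2, h3]

lemma memA0 (v : Fin 4 → K) : v ∈ (mapA K).eigenspace 0 ↔ v 0 = 0 ∧ v 3 = 0 := by
  rw [mem_eigenspace_apply, mapA_apply]
  simp

lemma memA2' (v : Fin 4 → K) : v ∈ (mapA K).eigenspace (-2) ↔ v 0 = 0 ∧ v 1 = 0 ∧ v 2 = 0 := by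
  rw [mem_eigenspace_apply, mapA_apply]
  simp only [Matrix.cons_val_zero, Matrix.cons_val_one, Matrix.cons_val]
  constructor
  · rintro ⟨h0, h1, h2, -⟩
    refine ⟨?_, ?_, ?_⟩
    · have : (4 : K) * v 0 = 0 := by linear_combination h0
      simpa using this
    · simpa using h1.symm
    · simpa using h2.symm
  · rintro ⟨h1, h2, h3⟩
    simp [h1, h2, h3]

lemma memB8 (v : Fin 4 → K) : v ∈ (mapB K).eigenspace 8 ↔
    v 0 + 3 * v 1 = 0 ∧ 3 * v 1 + v 2 = 0 ∧ -v 1 + v 3 = 0 := by
  rw [mem_eigenspace_apply, mapB_apply]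
  simp only [Matrix.cons_val_zero, Matrix.cons_val_one, Matrix.cons_val]
  constructor
  · rintro ⟨h0, h1, h2, h3⟩
    refine ⟨?_, ?_, ?_⟩
    · linear_combination 3 / 16 * h0 - 3 / 16 * h1 + 1 / 4 * h2
    · linear_combination 25 / 64 * h0 - 9 / 64 * h1 + 3 / 16 * h2
    · linear_combination 9 / 64 * h0 + 7 / 64 * h1 + 3 / 16 * h2
  · rintro ⟨h1, h2, h3⟩
    refine ⟨?_, ?_, ?_, ?_⟩
    · linear_combination -3 * h1 + 4 * h2
    · linear_combination -3 * h1 + 4 * h3
    · linear_combination 4 * h1 - 3 * h2 + 3 * h3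
    · linear_combination -3 * h2 - 13 * h3

lemma memB8' (v : Fin 4 → K) : v ∈ (mapB K).eigenspace (-8) ↔
    3 * v 0 + v 1 = 0 ∧ v 0 + v 2 = 0 ∧ -3 * v 0 + v 3 = 0 := by
  rw [mem_eigenspace_apply, mapB_apply]
  simp only [Matrix.cons_val_zero, Matrix.cons_val_one, Matrix.cons_val]
  constructor
  · rintro ⟨h0, h1, h2, h3⟩
    refine ⟨?_, ?_, ?_⟩
    · linear_combination 13 / 48 * h0 + 1 / 16 * h1 - 1 / 12 * h2
    · linear_combination 3 / 64 * h0 - 3 / 64 * h1 + 1 / 16 * h2
    · linear_combination -13 / 64 * h0 + 13 / 64 * h1 + 1 / 16 * h2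
  · rintro ⟨h1, h2, h3⟩
    refine ⟨?_, ?_, ?_, ?_⟩
    · linear_combination 3 * h1 + 4 * h2
    · linear_combination 3 * h1 + 4 * h3
    · linear_combination 13 * h2 + 3 * h3
    · linear_combination 4 * h1 - 3 * h2 + 3 * h3

lemma memB0 (v : Fin 4 → K) : v ∈ (mapB K).eigenspace 0 ↔
    v 0 + 3 * v 1 - v 2 - 3 * v 3 = 0 ∧ 3 * v 0 + v 1 + 3 * v 2 + v 3 = 0 := by
  rw [mem_eigenspace_apply, mapB_apply]
  simp only [Matrix.cons_val_zero, Matrix.cons_val_one, Matrix.cons_val, zero_mul]
  constructor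
  · rintro ⟨h0, h1, h2, h3⟩
    refine ⟨?_, ?_⟩
    · linear_combination -1 / 4 * h0 - 3 / 4 * h1
    · linear_combination 3 / 4 * h0 + 1 / 4 * h1
  · rintro ⟨h1, h2⟩
    refine ⟨?_, ?_, ?_, ?_⟩
    · linear_combination 1 / 2 * h1 + 3 / 2 * h2
    · linear_combination -3 / 2 * h1 - 1 / 2 * h2
    · linear_combination -1 / 2 * h1 + 3 / 2 * h2
    · linear_combination 3 / 2 * h1 - 1 / 2 * h2

/-- The kernel of `v ↦ v 0 + 3 v 1 - v 2 - 3 v 3`. -/
def kerPhi (K : Type*) [Field K] : Submodule K (Fin 4 → K) where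
  carrier := {v | v 0 + 3 * v 1 - v 2 - 3 * v 3 = 0}
  add_mem' := by
    intro a b ha hb
    simp only [Set.mem_ofPred_eq, Pi.add_apply] at *
    linear_combination ha + hb
  zero_mem' := by simp
  smul_mem' := by
    intro c a ha
    simp only [Set.mem_ofPred_eq, Pi.smul_apply, smul_eq_mul] at *
    linear_combination c * ha

/-- The kernel of `v ↦ 3 v 0 + v 1 + 3 v 2 + v 3`. -/
def kerPsi (K : Type*) [Field K] : Submodule K (Fin 4 → K) where
  carrier := {v | 3 * v 0 + v 1 + 3 * v 2 + v 3 = 0}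
  add_mem' := by
    intro a b ha hb
    simp only [Set.mem_ofPred_eq, Pi.add_apply] at *
    linear_combination ha + hb
  zero_mem' := by simp
  smul_mem' := by
    intro c a ha
    simp only [Set.mem_ofPred_eq, Pi.smul_apply, smul_eq_mul] at *
    linear_combination c * ha

lemma mem_kerPhi (v : Fin 4 → K) : v ∈ kerPhi K ↔ v 0 + 3 * v 1 - v 2 - 3 * v 3 = 0 := Iff.rfl
lemma mem_kerPsi (v : Fin 4 → K) : v ∈ kerPsi K ↔ 3 * v 0 + v 1 + 3 * v 2 + v 3 = 0 := Iff.rfl

lemma mem_eigSum {A : End K (Fin 4 → K)} {θ : Fin 3 → K} {s : Set (Fin 3)} {j : Fin 3}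
    (hj : j ∈ s) {v : Fin 4 → K} (hv : v ∈ A.eigenspace (θ j)) : v ∈ eigSum A θ s :=
  Submodule.mem_iSup_of_mem j (Submodule.mem_iSup_of_mem hj hv)

lemma eigSum_le {A : End K (Fin 4 → K)} {θ : Fin 3 → K} {s : Set (Fin 3)}
    {W : Submodule K (Fin 4 → K)} (h : ∀ j ∈ s, A.eigenspace (θ j) ≤ W) : eigSum A θ s ≤ W :=
  iSup₂_le h

lemma decompA (v : Fin 4 → K) : v = ![v 0, 0, 0, 0] + ![0, v 1, v 2, 0] + ![0, 0, 0, v 3] := by
  ext i; fin_cases i <;> simp

lemma decompB (v : Fin 4 → K) :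
    v = ((3 * v 0 + v 1 + 3 * v 2 + v 3) / 16) • ![3, -1, 3, -1]
      + (v - ((3 * v 0 + v 1 + 3 * v 2 + v 3) / 16) • ![3, -1, 3, -1]
          - (-(v 0 + 3 * v 1 - v 2 - 3 * v 3) / 16) • ![1, -3, -1, 3])
      + (-(v 0 + 3 * v 1 - v 2 - 3 * v 3) / 16) • ![1, -3, -1, 3] := by
  abel

lemma comp8 (c : K) : c • ![3, -1, 3, -1] ∈ (mapB K).eigenspace 8 := by
  rw [memB8]
  simp
  refine ⟨?_, ?_⟩ <;> ring

lemma comp8' (c : K) : c • ![1, -3, -1, 3] ∈ (mapB K).eigenspace (-8) := by
  rw [memB8']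
  simp
  refine ⟨?_, ?_⟩ <;> ring

lemma comp0 (v : Fin 4 → K) : (v - ((3 * v 0 + v 1 + 3 * v 2 + v 3) / 16) • ![3, -1, 3, -1]
          - (-(v 0 + 3 * v 1 - v 2 - 3 * v 3) / 16) • ![1, -3, -1, 3]) ∈
      (mapB K).eigenspace 0 := by
  rw [memB0]
  simp only [Pi.sub_apply, Pi.smul_apply, smul_eq_mul, Matrix.cons_val_zero, Matrix.cons_val_one,
    Matrix.cons_val]
  refine ⟨?_, ?_⟩ <;> ring

lemma map_eq_of_inverse {S T : End K (Fin 4 → K)} (hST : ∀ v, S (T v) = v)
    {P Q : Submodule K (Fin 4 → K)} (h1 : ∀ v ∈ P, S v ∈ Q) (h2 : ∀ w ∈ Q, T w ∈ P) :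
    P.map S = Q := by
  apply le_antisymm
  · rintro _ ⟨v, hv, rfl⟩
    exact h1 v hv
  · intro w hw
    exact ⟨T w, h2 w hw, hST w⟩

lemma mapS_mapT (v : Fin 4 → K) : mapS K (mapT K v) = v := by
  rw [mapS_apply, mapT_apply]
  ext i
  fin_cases i <;> simp <;> ring

/-- `V^*_0`. -/
lemma sumB0 : eigSum (mapB K) (eigB K) {j | j ≤ 0} = (mapB K).eigenspace 8 := by
  apply le_antisymm
  · refine eigSum_le fun j hj => ?_
    have : j = 0 := le_antisymm hj (Fin.zero_le j)
    subst this
    exact le_rfl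
  · intro v hv
    exact mem_eigSum (j := 0) (le_refl (0 : Fin 3)) hv

/-- `V^*_0 + V^*_1`. -/
lemma sumB1 : eigSum (mapB K) (eigB K) {j | j ≤ 1} = kerPhi K := by
  apply le_antisymm
  · refine eigSum_le fun j hj => ?_
    match j, hj with
    | 0, _ =>
      intro v hv
      have hv' : v ∈ (mapB K).eigenspace 8 := hv
      rw [memB8] at hv'
      rw [mem_kerPhi]
      obtain ⟨h1, h2, h3⟩ := hv'
      linear_combination h1 - h2 - 3 * h3
    | 1, _ =>
      intro v hv
      have hv' : v ∈ (mapB K).eigenspace 0 := hv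
      rw [memB0] at hv'
      exact hv'.1
    | 2, hj => exact absurd hj (by decide)
  · intro v hv
    rw [mem_kerPhi] at hv
    rw [decompB v, hv]
    have h0 : (-(0 : K) / 16) • (![1, -3, -1, 3] : Fin 4 → K) = 0 := by simp
    rw [h0, add_zero]
    refine Submodule.add_mem _ (mem_eigSum (j := 0) (by decide : (0 : Fin 3) ≤ 1) (comp8 _)) ?_
    refine mem_eigSum (j := 1) (le_refl (1 : Fin 3)) ?_
    have := comp0 v
    rwa [hv, h0] at this

lemma sumAll (v : Fin 4 → K) (s : Set (Fin 3)) (hs : ∀ j, j ∈ s) :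
    v ∈ eigSum (mapB K) (eigB K) s := by
  rw [decompB v]
  refine Submodule.add_mem _ (Submodule.add_mem _ (mem_eigSum (hs 0) (comp8 _))
    (mem_eigSum (hs 1) (comp0 v))) (mem_eigSum (hs 2) (comp8' _))

/-- `V^*_0 + V^*_1 + V^*_2`. -/
lemma sumB2 : eigSum (mapB K) (eigB K) {j | j ≤ 2} = ⊤ := by
  rw [eq_top_iff]
  intro v _
  exact sumAll v _ fun j => Fin.le_last j

/-- `V^*_2`. -/
lemma sumB0' : eigSum (mapB K) (eigB K) {j | (0 : Fin 3).rev ≤ j} = (mapB K).eigenspace (-8) := by
  apply le_antisymm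
  · refine eigSum_le fun j hj => ?_
    have : j = 2 := le_antisymm (Fin.le_last j) hj
    subst this
    exact le_rfl
  · intro v hv
    exact mem_eigSum (j := 2) (le_refl (2 : Fin 3)) hv

/-- `V^*_2 + V^*_1`. -/
lemma sumB1' : eigSum (mapB K) (eigB K) {j | (1 : Fin 3).rev ≤ j} = kerPsi K := by
  apply le_antisymm
  · refine eigSum_le fun j hj => ?_
    match j, hj with
    | 0, hj => exact absurd hj (by decide)
    | 1, _ =>
      intro v hv
      have hv' : v ∈ (mapB K).eigenspace 0 := hv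
      rw [memB0] at hv'
      exact hv'.2
    | 2, _ =>
      intro v hv
      have hv' : v ∈ (mapB K).eigenspace (-8) := hv
      rw [memB8'] at hv'
      rw [mem_kerPsi]
      obtain ⟨h1, h2, h3⟩ := hv'
      linear_combination h1 + 3 * h2 + h3
  · intro v hv
    rw [mem_kerPsi] at hv
    rw [decompB v, hv]
    have h0 : ((0 : K) / 16) • (![3, -1, 3, -1] : Fin 4 → K) = 0 := by simp
    rw [h0, zero_add]
    refine Submodule.add_mem _ ?_
      (mem_eigSum (j := 2) (by decide : (1 : Fin 3).rev ≤ 2) (comp8' _))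
    refine mem_eigSum (j := 1) (by decide : (1 : Fin 3).rev ≤ 1) ?_
    have := comp0 v
    rwa [hv, h0] at this

/-- `V^*_2 + V^*_1 + V^*_0`. -/
lemma sumB2' : eigSum (mapB K) (eigB K) {j | (2 : Fin 3).rev ≤ j} = ⊤ := by
  rw [eq_top_iff]
  intro v _
  exact sumAll v _ fun j => Fin.zero_le j

lemma admissible : Admissible (mapA K) (mapB K) (eigA K) (eigB K) (mapS K) := by
  intro i
  match i with
  | 0 =>
    refine ⟨?_, ?_⟩
    · change ((mapA K).eigenspace 2).map (mapS K) = (mapA K).eigenspace 2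
      refine map_eq_of_inverse mapS_mapT (fun v hv => ?_) (fun v hv => ?_)
      · rw [memA2] at hv ⊢
        obtain ⟨h1, h2, h3⟩ := hv
        simp [mapS_apply, h1, h2, h3]
      · rw [memA2] at hv ⊢
        obtain ⟨h1, h2, h3⟩ := hv
        simp [mapT_apply, h1, h2, h3]
    · rw [sumB0, sumB0']
      refine map_eq_of_inverse mapS_mapT (fun v hv => ?_) (fun v hv => ?_)
      · rw [memB8] at hv
        rw [memB8']
        obtain ⟨h1, h2, h3⟩ := hv
        simp only [mapS_apply, Matrix.cons_val_zero, Matrix.cons_val_one, Matrix.cons_val]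
        refine ⟨?_, ?_, ?_⟩
        · linear_combination 6 * h1 - 15 * h2
        · linear_combination 2 * h1 + 3 * h2
        · linear_combination -6 * h1 - 18 * h3
      · rw [memB8'] at hv
        rw [memB8]
        obtain ⟨h1, h2, h3⟩ := hv
        simp only [mapT_apply, Matrix.cons_val_zero, Matrix.cons_val_one, Matrix.cons_val]
        refine ⟨?_, ?_, ?_⟩
        · linear_combination 1 / 16 * h1 + 5 / 16 * h2
        · linear_combination (9 / 144 - 15 / 144) * h1 + (45 / 144 - 27 / 144) * h2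
        · linear_combination -3 / 144 * h1 - 15 / 144 * h2 - 1 / 18 * h3
  | 1 =>
    refine ⟨?_, ?_⟩
    · change ((mapA K).eigenspace 0).map (mapS K) = (mapA K).eigenspace 0
      refine map_eq_of_inverse mapS_mapT (fun v hv => ?_) (fun v hv => ?_)
      · rw [memA0] at hv ⊢
        obtain ⟨h1, h2⟩ := hv
        simp [mapS_apply, h1, h2]
      · rw [memA0] at hv ⊢
        obtain ⟨h1, h2⟩ := hv
        simp [mapT_apply, h1, h2]
    · rw [sumB1, sumB1']
      refine map_eq_of_inverse mapS_mapT (fun v hv => ?_) (fun v hv => ?_)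
      · rw [mem_kerPhi] at hv
        rw [mem_kerPsi]
        simp only [mapS_apply, Matrix.cons_val_zero, Matrix.cons_val_one, Matrix.cons_val]
        linear_combination 6 * hv
      · rw [mem_kerPsi] at hv
        rw [mem_kerPhi]
        simp only [mapT_apply, Matrix.cons_val_zero, Matrix.cons_val_one, Matrix.cons_val]
        linear_combination 1 / 6 * hv
  | 2 =>
    refine ⟨?_, ?_⟩
    · change ((mapA K).eigenspace (-2)).map (mapS K) = (mapA K).eigenspace (-2)
      refine map_eq_of_inverse mapS_mapT (fun v hv => ?_) (fun v hv => ?_)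
      · rw [memA2'] at hv ⊢
        obtain ⟨h1, h2, h3⟩ := hv
        simp [mapS_apply, h1, h2, h3]
      · rw [memA2'] at hv ⊢
        obtain ⟨h1, h2, h3⟩ := hv
        simp [mapT_apply, h1, h2, h3]
    · rw [sumB2, sumB2']
      exact map_eq_of_inverse mapS_mapT (fun v _ => Submodule.mem_top)
        (fun v _ => Submodule.mem_top)

lemma sumA_mem (v : Fin 4 → K) (s : Set (Fin 3)) (h0 : (0 : Fin 3) ∈ s ∨ v 0 = 0)
    (h1 : (1 : Fin 3) ∈ s ∨ (v 1 = 0 ∧ v 2 = 0)) (h2 : (2 : Fin 3) ∈ s ∨ v 3 = 0) :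
    v ∈ eigSum (mapA K) (eigA K) s := by
  rw [decompA v]
  refine Submodule.add_mem _ (Submodule.add_mem _ ?_ ?_) ?_
  · rcases h0 with h0 | h0
    · refine mem_eigSum h0 ?_
      change _ ∈ (mapA K).eigenspace 2
      rw [memA2]; simp
    · rw [h0]
      convert Submodule.zero_mem _
      ext i; fin_cases i <;> rfl
  · rcases h1 with h1 | ⟨h1, h1'⟩
    · refine mem_eigSum h1 ?_
      change _ ∈ (mapA K).eigenspace 0
      rw [memA0]; simp
    · rw [h1, h1']
      convert Submodule.zero_mem _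
      ext i; fin_cases i <;> rfl
  · rcases h2 with h2 | h2
    · refine mem_eigSum h2 ?_
      change _ ∈ (mapA K).eigenspace (-2)
      rw [memA2']; simp
    · rw [h2]
      convert Submodule.zero_mem _
      ext i; fin_cases i <;> rfl

lemma sumB_mem (v : Fin 4 → K) (s : Set (Fin 3))
    (h0 : (0 : Fin 3) ∈ s ∨ 3 * v 0 + v 1 + 3 * v 2 + v 3 = 0)
    (h1 : (1 : Fin 3) ∈ s)
    (h2 : (2 : Fin 3) ∈ s ∨ v 0 + 3 * v 1 - v 2 - 3 * v 3 = 0) :
    v ∈ eigSum (mapB K) (eigB K) s := by
  rw [decompB v]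
  refine Submodule.add_mem _ (Submodule.add_mem _ ?_ (mem_eigSum h1 (comp0 v))) ?_
  · rcases h0 with h0 | h0
    · exact mem_eigSum h0 (comp8 _)
    · rw [h0]; simp
  · rcases h2 with h2 | h2
    · exact mem_eigSum h2 (comp8' _)
    · rw [h2]; simp

lemma eigSum_le_top_of_diag {A : End K (Fin 4 → K)} {θ : Fin 3 → K}
    (h : ∀ v, v ∈ eigSum A θ Set.univ) : Diagonalizable A := by
  rw [Diagonalizable, eq_top_iff]
  intro v _
  have h1 : eigSum A θ Set.univ ≤ ⨆ μ : K, A.eigenspace μ :=
    iSup₂_le fun j _ => le_iSup (fun μ : K => A.eigenspace μ) (θ j)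
  exact h1 (h v)

lemma eigA_injective : Function.Injective (eigA K) := by
  have h1 : (2 : K) ≠ 0 := by norm_num
  have h2 : (2 : K) ≠ -2 := by
    intro h
    have : (4 : K) = 0 := by linear_combination h
    norm_num at this
  have h3 : (0 : K) ≠ -2 := by
    intro h
    have : (2 : K) = 0 := by linear_combination h
    norm_num at this
  intro i j hij
  match i, j with
  | 0, 0 => rfl
  | 1, 1 => rfl
  | 2, 2 => rfl
  | 0, 1 => exact absurd hij h1
  | 1, 0 => exact absurd hij h1.symm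
  | 0, 2 => exact absurd hij h2
  | 2, 0 => exact absurd hij h2.symm
  | 1, 2 => exact absurd hij h3
  | 2, 1 => exact absurd hij h3.symm

lemma eigB_injective : Function.Injective (eigB K) := by
  have h1 : (8 : K) ≠ 0 := by norm_num
  have h2 : (8 : K) ≠ -8 := by
    intro h
    have : (16 : K) = 0 := by linear_combination h
    norm_num at this
  have h3 : (0 : K) ≠ -8 := by
    intro h
    have : (8 : K) = 0 := by linear_combination h
    norm_num at this
  intro i j hij
  match i, j with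
  | 0, 0 => rfl
  | 1, 1 => rfl
  | 2, 2 => rfl
  | 0, 1 => exact absurd hij h1
  | 1, 0 => exact absurd hij h1.symm
  | 0, 2 => exact absurd hij h2
  | 2, 0 => exact absurd hij h2.symm
  | 1, 2 => exact absurd hij h3
  | 2, 1 => exact absurd hij h3.symm

lemma orderingA : Ordering (mapA K) (eigA K) := by
  refine ⟨eigA_injective, fun μ => ⟨fun h => ?_, ?_⟩⟩
  · obtain ⟨v, hv⟩ := h.exists_hasEigenvector
    obtain ⟨hv1, hv0⟩ := (End.hasEigenvector_iff.mp hv)
    rw [mem_eigenspace_apply, mapA_apply] at hv1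
    simp only [Matrix.cons_val_zero, Matrix.cons_val_one, Matrix.cons_val] at hv1
    obtain ⟨h0, h1, h2, h3⟩ := hv1
    by_contra hc
    push Not at hc
    have c0 : (2 : K) - μ ≠ 0 := sub_ne_zero.mpr (hc 0)
    have c1 : μ ≠ 0 := (hc 1).symm
    have c2 : (-2 : K) - μ ≠ 0 := sub_ne_zero.mpr (hc 2)
    apply hv0
    ext i
    match i with
    | 0 =>
      have : ((2 : K) - μ) * v 0 = 0 := by linear_combination h0
      exact (mul_eq_zero.mp this).resolve_left c0
    | 1 => exact (mul_eq_zero.mp h1.symm).resolve_left c1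
    | 2 => exact (mul_eq_zero.mp h2.symm).resolve_left c1
    | 3 =>
      have : ((-2 : K) - μ) * v 3 = 0 := by linear_combination h3
      exact (mul_eq_zero.mp this).resolve_left c2
  · rintro ⟨i, rfl⟩
    match i with
    | 0 =>
      refine End.hasEigenvalue_of_hasEigenvector (x := ![1, 0, 0, 0])
        (End.hasEigenvector_iff.mpr ⟨?_, fun h => one_ne_zero (congrFun h 0)⟩)
      change _ ∈ (mapA K).eigenspace 2
      rw [memA2]; simp
    | 1 =>
      refine End.hasEigenvalue_of_hasEigenvector (x := ![0, 1, 0, 0])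
        (End.hasEigenvector_iff.mpr ⟨?_, fun h => one_ne_zero (congrFun h 1)⟩)
      change _ ∈ (mapA K).eigenspace 0
      rw [memA0]; simp
    | 2 =>
      refine End.hasEigenvalue_of_hasEigenvector (x := ![0, 0, 0, 1])
        (End.hasEigenvector_iff.mpr ⟨?_, fun h => one_ne_zero (congrFun h 3)⟩)
      change _ ∈ (mapA K).eigenspace (-2)
      rw [memA2']; simp

lemma orderingB : Ordering (mapB K) (eigB K) := by
  refine ⟨eigB_injective, fun μ => ⟨fun h => ?_, ?_⟩⟩
  · obtain ⟨v, hv⟩ := h.exists_hasEigenvector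
    obtain ⟨hv1, hv0⟩ := (End.hasEigenvector_iff.mp hv)
    rw [mem_eigenspace_apply, mapB_apply] at hv1
    simp only [Matrix.cons_val_zero, Matrix.cons_val_one, Matrix.cons_val] at hv1
    obtain ⟨h0, h1, h2, h3⟩ := hv1
    by_contra hc
    push Not at hc
    have c0 : (8 : K) - μ ≠ 0 := sub_ne_zero.mpr (hc 0)
    have c1 : μ ≠ 0 := (hc 1).symm
    have c2 : (-8 : K) - μ ≠ 0 := sub_ne_zero.mpr (hc 2)
    have cc : μ * (8 - μ) * (-8 - μ) ≠ 0 := mul_ne_zero (mul_ne_zero c1 c0) c2
    apply hv0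
    ext i
    match i with
    | 0 =>
      have : (μ * (8 - μ) * (-8 - μ)) * v 0 = 0 := by
        linear_combination -(1 * μ ^ 2 + (5) * μ + (-32)) * h0 + -(0 * μ ^ 2 + (3) * μ + (0)) * h1 + -(0 * μ ^ 2 + (4) * μ + (40)) * h2 + -(0 * μ ^ 2 + (0) * μ + (24)) * h3
      exact (mul_eq_zero.mp this).resolve_left cc
    | 1 =>
      have : (μ * (8 - μ) * (-8 - μ)) * v 1 = 0 := by
        linear_combination -(0 * μ ^ 2 + (-3) * μ + (0)) * h0 + -(1 * μ ^ 2 + (-5) * μ + (-32)) * h1 + -(0 * μ ^ 2 + (0) * μ + (-24)) * h2 + -(0 * μ ^ 2 + (4) * μ + (-40)) * h3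
      exact (mul_eq_zero.mp this).resolve_left cc
    | 2 =>
      have : (μ * (8 - μ) * (-8 - μ)) * v 2 = 0 := by
        linear_combination -(0 * μ ^ 2 + (4) * μ + (40)) * h0 + -(0 * μ ^ 2 + (0) * μ + (24)) * h1 + -(1 * μ ^ 2 + (5) * μ + (-32)) * h2 + -(0 * μ ^ 2 + (3) * μ + (0)) * h3
      exact (mul_eq_zero.mp this).resolve_left cc
    | 3 =>
      have : (μ * (8 - μ) * (-8 - μ)) * v 3 = 0 := by
        linear_combination -(0 * μ ^ 2 + (0) * μ + (-24)) * h0 + -(0 * μ ^ 2 + (4) * μ + (-40)) * h1 + -(0 * μ ^ 2 + (-3) * μ + (0)) * h2 + -(1 * μ ^ 2 + (-5) * μ + (-32)) * h3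
      exact (mul_eq_zero.mp this).resolve_left cc
  · rintro ⟨i, rfl⟩
    match i with
    | 0 =>
      refine End.hasEigenvalue_of_hasEigenvector (x := ![3, -1, 3, -1])
        (End.hasEigenvector_iff.mpr ⟨?_, fun h => ?_⟩)
      · change _ ∈ (mapB K).eigenspace 8
        rw [memB8]; simp
      · have := congrFun h 0
        norm_num at this
    | 1 =>
      refine End.hasEigenvalue_of_hasEigenvector (x := ![1, -3, 1, -3])
        (End.hasEigenvector_iff.mpr ⟨?_, fun h => one_ne_zero (congrFun h 0)⟩)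
      change _ ∈ (mapB K).eigenspace 0
      rw [memB0]
      simp only [Matrix.cons_val_zero, Matrix.cons_val_one, Matrix.cons_val]
      refine ⟨?_, ?_⟩ <;> ring
    | 2 =>
      refine End.hasEigenvalue_of_hasEigenvector (x := ![1, -3, -1, 3])
        (End.hasEigenvector_iff.mpr ⟨?_, fun h => one_ne_zero (congrFun h 0)⟩)
      change _ ∈ (mapB K).eigenspace (-8)
      rw [memB8']; simp

lemma pair : TridiagonalPair (mapA K) (mapB K) (eigA K) (eigB K) where
  diagonalizable_left := eigSum_le_top_of_diag (θ := eigA K) fun v =>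
    sumA_mem v _ (Or.inl trivial) (Or.inl trivial) (Or.inl trivial)
  diagonalizable_right := eigSum_le_top_of_diag (θ := eigB K) fun v =>
    sumB_mem v _ (Or.inl trivial) trivial (Or.inl trivial)
  ordering_left := orderingA
  ordering_right := orderingB
  tridiagonal_left := by
    intro i
    match i with
    | 0 =>
      rintro _ ⟨v, hv, rfl⟩
      have hv' : v ∈ (mapA K).eigenspace 2 := hv
      rw [memA2] at hv'
      refine sumA_mem _ _ (Or.inl (by decide)) (Or.inl (by decide)) (Or.inr ?_)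
      simp [mapB_apply, hv'.1, hv'.2.1, hv'.2.2]
    | 1 =>
      rintro _ ⟨v, hv, rfl⟩
      exact sumA_mem _ _ (Or.inl (by decide)) (Or.inl (by decide)) (Or.inl (by decide))
    | 2 =>
      rintro _ ⟨v, hv, rfl⟩
      have hv' : v ∈ (mapA K).eigenspace (-2) := hv
      rw [memA2'] at hv'
      refine sumA_mem _ _ (Or.inr ?_) (Or.inl (by decide)) (Or.inl (by decide))
      simp [mapB_apply, hv'.1, hv'.2.1, hv'.2.2]
  tridiagonal_right := by
    intro i
    match i with
    | 0 =>
      rintro _ ⟨v, hv, rfl⟩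
      have hv' : v ∈ (mapB K).eigenspace 8 := hv
      rw [memB8] at hv'
      refine sumB_mem _ _ (Or.inl (by decide)) (by decide) (Or.inr ?_)
      obtain ⟨h1, h2, h3⟩ := hv'
      simp only [mapA_apply, Matrix.cons_val_zero, Matrix.cons_val_one, Matrix.cons_val]
      linear_combination 2 * h1 + 6 * h3
    | 1 =>
      rintro _ ⟨v, hv, rfl⟩
      exact sumB_mem _ _ (Or.inl (by decide)) (by decide) (Or.inl (by decide))
    | 2 =>
      rintro _ ⟨v, hv, rfl⟩
      have hv' : v ∈ (mapB K).eigenspace (-8) := hv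
      rw [memB8'] at hv'
      refine sumB_mem _ _ (Or.inr ?_) (by decide) (Or.inl (by decide))
      obtain ⟨h1, h2, h3⟩ := hv'
      simp only [mapA_apply, Matrix.cons_val_zero, Matrix.cons_val_one, Matrix.cons_val]
      linear_combination -2 * h3
  irreducible := by
    intro W hA hB
    have hA' : ∀ v ∈ W, mapA K v ∈ W := fun v hv => hA ⟨v, hv, rfl⟩
    have hB' : ∀ v ∈ W, mapB K v ∈ W := fun v hv => hB ⟨v, hv, rfl⟩
    -- the three components
    have c0 : ∀ v ∈ W, (![v 0, 0, 0, 0] : Fin 4 → K) ∈ W := by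
      intro v hv
      have h1 := W.smul_mem (1 / 8 : K) (W.add_mem (hA' _ (hA' v hv))
        (W.smul_mem (2 : K) (hA' v hv)))
      convert h1 using 1
      ext i; fin_cases i <;> simp [mapA_apply] <;> ring
    have c2 : ∀ v ∈ W, (![0, 0, 0, v 3] : Fin 4 → K) ∈ W := by
      intro v hv
      have h1 := W.smul_mem (1 / 8 : K) (W.sub_mem (hA' _ (hA' v hv))
        (W.smul_mem (2 : K) (hA' v hv)))
      convert h1 using 1
      ext i; fin_cases i <;> simp [mapA_apply] <;> ring
    have c1 : ∀ v ∈ W, (![0, v 1, v 2, 0] : Fin 4 → K) ∈ W := by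
      intro v hv
      have h1 := W.sub_mem (W.sub_mem hv (c0 v hv)) (c2 v hv)
      have h2 : v - ![v 0, 0, 0, 0] - ![0, 0, 0, v 3] = ![0, v 1, v 2, 0] := by
        ext i
        match i with
        | 0 => simp only [Pi.sub_apply, Matrix.cons_val_zero, sub_self, sub_zero]
        | 1 => simp only [Pi.sub_apply, Matrix.cons_val_one, Matrix.cons_val, sub_zero]
        | 2 => simp only [Pi.sub_apply, Matrix.cons_val, sub_zero]
        | 3 => simp only [Pi.sub_apply, Matrix.cons_val, sub_zero, sub_self]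
      rwa [h2] at h1
    have sc : ∀ (a : K) (x y z t : K), a ≠ 0 → (![a * x, a * y, a * z, a * t] : Fin 4 → K) ∈ W →
        (![x, y, z, t] : Fin 4 → K) ∈ W := by
      intro a x y z t ha h
      have h1 := W.smul_mem a⁻¹ h
      convert h1 using 1
      ext i; fin_cases i <;> simp [ha]
    -- from the first basis vector everything is obtained
    have step0 : (![1, 0, 0, 0] : Fin 4 → K) ∈ W → W = ⊤ := by
      intro h
      have h1 := c1 _ (hB' _ h)
      have h2 := hB' _ h1
      have h3 := c1 _ h2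
      have h4 := c2 _ h2
      have e3 : (![0, 0, 0, 1] : Fin 4 → K) ∈ W := by
        apply sc (-24) 0 0 0 1 (by norm_num)
        convert h4 using 1
        ext i; fin_cases i <;> simp [mapB_apply]; norm_num
      have e1 : (![0, 1, 0, 0] : Fin 4 → K) ∈ W := by
        apply sc (-120) 0 1 0 0 (by norm_num)
        have h5 := W.sub_mem (W.smul_mem (20 : K) h1) (W.smul_mem (4 : K) h3)
        convert h5 using 1
        ext i; fin_cases i <;> simp [mapB_apply] <;> norm_num
      have e2 : (![0, 0, 1, 0] : Fin 4 → K) ∈ W := by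
        apply sc 4 0 0 1 0 (by norm_num)
        have h5 := W.add_mem h1 (W.smul_mem (3 : K) e1)
        convert h5 using 1
        ext i; fin_cases i <;> simp [mapB_apply]
      rw [eq_top_iff]
      intro v _
      have h6 := W.add_mem (W.add_mem (W.smul_mem (v 0) h) (W.smul_mem (v 1) e1))
        (W.add_mem (W.smul_mem (v 2) e2) (W.smul_mem (v 3) e3))
      convert h6 using 1
      ext i; fin_cases i <;> simp
    have step3 : (![0, 0, 0, 1] : Fin 4 → K) ∈ W → W = ⊤ := by
      intro h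
      apply step0
      have h1 := c1 _ (hB' _ h)
      have h2 := c0 _ (hB' _ h1)
      apply sc 24 1 0 0 0 (by norm_num)
      convert h2 using 1
      ext i; fin_cases i <;> simp [mapB_apply]; norm_num
    by_cases hW : W = ⊥
    · exact Or.inl hW
    right
    obtain ⟨v, hv, hv0⟩ := W.ne_bot_iff.mp hW
    by_cases h0 : v 0 = 0
    · by_cases h3 : v 3 = 0
      · -- a vector of the middle eigenspace
        have hw := hB' _ hv
        by_cases ha : 3 * v 1 + 4 * v 2 = 0
        · by_cases hb : 4 * v 1 - 3 * v 2 = 0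
          · exfalso
            apply hv0
            ext i
            match i with
            | 0 => exact h0
            | 1 =>
              have : (25 : K) * v 1 = 0 := by linear_combination 3 * ha + 4 * hb
              simpa using this
            | 2 =>
              have : (25 : K) * v 2 = 0 := by linear_combination 4 * ha - 3 * hb
              simpa using this
            | 3 => exact h3
          · apply step3
            apply sc (4 * v 1 - 3 * v 2) 0 0 0 1 hb
            convert c2 _ hw using 1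
            ext i; fin_cases i <;> simp [mapB_apply, h3]
        · apply step0
          apply sc (3 * v 1 + 4 * v 2) 1 0 0 0 ha
          convert c0 _ hw using 1
          ext i; fin_cases i <;> simp [mapB_apply, h0]
      · apply step3
        apply sc (v 3) 0 0 0 1 h3
        convert c2 _ hv using 1
        ext i; fin_cases i <;> simp
    · apply step0
      apply sc (v 0) 1 0 0 0 h0
      convert c0 _ hv using 1
      ext i; fin_cases i <;> simp

/-- The map `S` has a Jordan block of size two for the eigenvalue `-12`. -/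
lemma jordan : ∃ v : Fin 4 → K, (mapS K - algebraMap K (End K (Fin 4 → K)) (-12)) v ≠ 0 ∧
    ((mapS K - algebraMap K (End K (Fin 4 → K)) (-12)) ^ 2) v = 0 := by
  have key : ∀ v : Fin 4 → K, (mapS K - algebraMap K (End K (Fin 4 → K)) (-12)) v =
      ![14 * v 0, -15 * v 1 - 15 * v 2, 15 * v 1 + 15 * v 2, -6 * v 3] := by
    intro v
    ext i
    fin_cases i <;> simp [mapS_apply, Module.algebraMap_end_apply] <;> ring
  refine ⟨![0, 1, 0, 0], ?_, ?_⟩
  · rw [key]
    intro h
    have h2 := congrFun h 2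
    simp only [Matrix.cons_val, Matrix.cons_val_one, mul_one, mul_zero, add_zero, Pi.zero_apply] at h2
    norm_num at h2
  · rw [pow_two, Module.End.mul_apply, key, key]
    ext i
    fin_cases i <;> simp

lemma not_diagonalizable : ¬ Diagonalizable (mapS K) := by
  intro h
  let W : Submodule K (Fin 4 → K) :=
    { carrier := {v | v 1 + v 2 = 0}
      add_mem' := by
        intro a b ha hb
        simp only [Set.mem_ofPred_eq, Pi.add_apply] at *
        linear_combination ha + hb
      zero_mem' := by simp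
      smul_mem' := by
        intro c a ha
        simp only [Set.mem_ofPred_eq, Pi.smul_apply, smul_eq_mul] at *
        linear_combination c * ha }
  have hW : (⨆ μ : K, (mapS K).eigenspace μ) ≤ W := by
    refine iSup_le fun μ v hv => ?_
    rw [mem_eigenspace_apply, mapS_apply] at hv
    simp only [Matrix.cons_val_zero, Matrix.cons_val_one, Matrix.cons_val] at hv
    obtain ⟨-, h1, h2, -⟩ := hv
    have h3 : (μ + 12) * (v 1 + v 2) = 0 := by
      linear_combination -h1 - h2
    change v 1 + v 2 = 0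
    rcases mul_eq_zero.mp h3 with h4 | h4
    · have h5 : μ = -12 := by linear_combination h4
      subst h5
      have : (15 : K) * (v 1 + v 2) = 0 := by linear_combination h2
      exact (mul_eq_zero.mp this).resolve_left (by norm_num)
    · exact h4
  rw [h] at hW
  have h1 : (![0, 1, 0, 0] : Fin 4 → K) ∈ W := hW Submodule.mem_top
  have h2 : (![0, 1, 0, 0] : Fin 4 → K) 1 + (![0, 1, 0, 0] : Fin 4 → K) 2 = 0 := h1
  simp at h2

end Example


end Q46.TD
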